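import Pool.Agent.helper59.Asym
import Pool.Agent.helper59.Binom
import Pool.Agent.helper59.Ramsey
import Pool.Agent.helper59.Lower

/-!
# Growth of the Ramsey numbers `n_t` of the six-point pattern of 4-sets

`n_t` is the least `n` such that every `t`-colouring of the 4-element subsets of `[n]` contains
`i₁ < ⋯ < i₆` with `c {i₁,i₂,i₃,i₅} = c {i₂,i₄,i₅,i₆}`.
We prove `log₂ n_t ∼ 2^t / √(2πt)`.
-/

namespace Pool.Agent.Results.MP_e9ef01_co.Growth

open Finset Filter Topology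
open Pool.Agent.helper59

/-- The 4-element subsets of `[n] = {1,…,n}`. -/
abbrev FourSubset (n : ℕ) : Type := {s : Finset ℕ // s ⊆ Finset.Icc 1 n ∧ s.card = 4}

/-- The colouring `c` of the 4-element subsets of `[n]` contains the pattern. -/
def ContainsPattern {n t : ℕ} (c : FourSubset n → Fin t) : Prop :=
  ∃ i₁ i₂ i₃ i₄ i₅ i₆ : ℕ, i₁ < i₂ ∧ i₂ < i₃ ∧ i₃ < i₄ ∧ i₄ < i₅ ∧ i₅ < i₆ ∧
    ∃ A B : FourSubset n, A.1 = {i₁, i₂, i₃, i₅} ∧ B.1 = {i₂, i₄, i₅, i₆} ∧ c A = c B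

/-- `n_t`: the least `n` such that every `t`-colouring of the 4-element subsets of `[n]` contains
the pattern. -/
noncomputable def ramseyNumber (t : ℕ) : ℕ :=
  sInf {n : ℕ | ∀ c : FourSubset n → Fin t, ContainsPattern c}

theorem four_prop {n a b c d : ℕ} (h : 1 ≤ a ∧ a < b ∧ b < c ∧ c < d ∧ d ≤ n) :
    ({a, b, c, d} : Finset ℕ) ⊆ Finset.Icc 1 n ∧ ({a, b, c, d} : Finset ℕ).card = 4 := by
  obtain ⟨h1, h2, h3, h4, h5⟩ := h
  constructor
  · intro x hx
    simp only [mem_insert, mem_singleton] at hx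
    rw [Finset.mem_Icc]
    omega
  · rw [card_insert_of_notMem, card_insert_of_notMem, card_insert_of_notMem, card_singleton]
    · simp only [mem_singleton]; omega
    · simp only [mem_insert, mem_singleton]; omega
    · simp only [mem_insert, mem_singleton]; omega

theorem upper_mem (t : ℕ) (ht : 1 ≤ t) :
    2 * ((2 * 2 ^ t + 1) * ma t) + 3 ∈
      {n : ℕ | ∀ c : FourSubset n → Fin t, ContainsPattern c} := by
  classical
  generalize hn : 2 * ((2 * 2 ^ t + 1) * ma t) + 3 = n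
  intro c
  by_contra hcon
  let col : ℕ → ℕ → ℕ → ℕ → Fin t := fun a b c' d =>
    if h : 1 ≤ a ∧ a < b ∧ b < c' ∧ c' < d ∧ d ≤ n then c ⟨{a, b, c', d}, four_prop h⟩
    else ⟨0, ht⟩
  have hPF : PF n col := by
    intro x₁ x₂ x₃ x₄ x₅ x₆ h1 h12 h23 h34 h45 h56 h6 heq
    have hA : 1 ≤ x₁ ∧ x₁ < x₂ ∧ x₂ < x₃ ∧ x₃ < x₅ ∧ x₅ ≤ n := by omega
    have hB : 1 ≤ x₂ ∧ x₂ < x₄ ∧ x₄ < x₅ ∧ x₅ < x₆ ∧ x₆ ≤ n := by omega
    simp only [col, dif_pos hA, dif_pos hB] at heq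
    exact hcon ⟨x₁, x₂, x₃, x₄, x₅, x₆, h12, h23, h34, h45, h56, _, _, rfl, rfl, heq⟩
  have := upper_main hPF
  unfold ma at hn
  omega

theorem ramseyNumber_le (t : ℕ) (ht : 1 ≤ t) :
    ramseyNumber t ≤ 2 * ((2 * 2 ^ t + 1) * ma t) + 3 := Nat.sInf_le (upper_mem t ht)

theorem ramseyNumber_mem (t : ℕ) (ht : 1 ≤ t) (c : FourSubset (ramseyNumber t) → Fin t) :
    ContainsPattern c := Nat.sInf_mem ⟨_, upper_mem t ht⟩ c

/-- the sorted elements of `{a,b,c,d}` -/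
theorem sorted_four {n a b c d : ℕ} (h2 : a < b) (h3 : b < c) (h4 : c < d) (A : FourSubset n)
    (hA : A.1 = {a, b, c, d}) :
    A.1.orderEmbOfFin A.2.2 0 = a ∧ A.1.orderEmbOfFin A.2.2 1 = b ∧
    A.1.orderEmbOfFin A.2.2 2 = c ∧ A.1.orderEmbOfFin A.2.2 3 = d := by
  have h := Finset.orderEmbOfFin_unique A.2.2 (f := ![a, b, c, d]) (by
    intro x
    rw [hA]
    fin_cases x <;> simp) (by
    rw [Fin.strictMono_iff_lt_succ]
    intro i
    fin_cases i <;> simpa)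
  refine ⟨?_, ?_, ?_, ?_⟩
  · exact (congrFun h 0).symm
  · exact (congrFun h 1).symm
  · exact (congrFun h 2).symm
  · exact (congrFun h 3).symm

theorem lt_ramseyNumber (t : ℕ) (ht : 1 ≤ t) : 2 ^ (QQ t) < ramseyNumber t := by
  classical
  obtain ⟨m, rfl⟩ : ∃ m, t = m + 1 := ⟨t - 1, by omega⟩
  by_contra hcon
  push Not at hcon
  obtain ⟨col, hcol⟩ := exists_colouring m
  set N := ramseyNumber (m + 1) with hN
  let c : FourSubset N → Fin (m + 1) := fun s =>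
    col (s.1.orderEmbOfFin s.2.2 0 - 1) (s.1.orderEmbOfFin s.2.2 1 - 1)
      (s.1.orderEmbOfFin s.2.2 2 - 1) (s.1.orderEmbOfFin s.2.2 3 - 1)
  obtain ⟨i₁, i₂, i₃, i₄, i₅, i₆, h12, h23, h34, h45, h56, A, B, hA, hB, hc⟩ :=
    ramseyNumber_mem (m + 1) ht c
  have h1 : 1 ≤ i₁ := by
    have : i₁ ∈ A.1 := by rw [hA]; simp
    exact (Finset.mem_Icc.1 (A.2.1 this)).1
  have h6 : i₆ ≤ N := by
    have : i₆ ∈ B.1 := by rw [hB]; simp
    exact (Finset.mem_Icc.1 (B.2.1 this)).2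
  obtain ⟨a0, a1, a2, a3⟩ := sorted_four (n := N) h12 h23 (by omega : i₃ < i₅) A hA
  obtain ⟨b0, b1, b2, b3⟩ := sorted_four (n := N) (by omega : i₂ < i₄) h45 h56 B hB
  simp only [c] at hc
  rw [a0, a1, a2, a3, b0, b1, b2, b3] at hc
  have hq : QQ (m + 1) = m.choose (m / 2) := rfl
  rw [hq] at hcon
  exact hcol (i₁ - 1) (i₂ - 1) (i₃ - 1) (i₄ - 1) (i₅ - 1) (i₆ - 1) (by omega) (by omega)
    (by omega) (by omega) (by omega) (by omega) hc

theorem ratio_tendsto : Tendsto (fun t : ℕ => Real.logb 2 (ramseyNumber t) / (QQ t : ℝ)) atTop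
    (𝓝 1) := by
  rw [Metric.tendsto_atTop]
  intro ε hε
  -- upper estimates
  have h1 := ma_upper (ε / 8) (by positivity)
  have h2 : Tendsto (fun t : ℕ => 8 * ((t : ℝ) ^ 2 / 2 ^ t)) atTop (𝓝 (8 * 0)) :=
    (tendsto_pow_const_div_const_pow_of_one_lt 2 (by norm_num : (1 : ℝ) < 2)).const_mul 8
  rw [mul_zero] at h2
  have h3 : ∀ᶠ t : ℕ in atTop, 8 * ((t : ℝ) ^ 2 / 2 ^ t) < ε / 2 :=
    h2.eventually_lt_const (by positivity)
  obtain ⟨T, hT⟩ := Filter.eventually_atTop.1 (h1.and (h3.and (eventually_ge_atTop 4)))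
  refine ⟨T, fun t ht => ?_⟩
  obtain ⟨g1, g2, g3⟩ := hT t ht
  have hQpos : (0 : ℝ) < (QQ t : ℝ) := by exact_mod_cast QQ_pos t
  have ht1 : 1 ≤ t := by omega
  -- lower bound
  have hlow : 1 ≤ Real.logb 2 (ramseyNumber t) / (QQ t : ℝ) := by
    rw [le_div_iff₀ hQpos, one_mul, Real.le_logb_iff_rpow_le (by norm_num)]
    · rw [Real.rpow_natCast]
      exact_mod_cast (lt_ramseyNumber t ht1).le
    · have := lt_ramseyNumber t ht1
      exact_mod_cast (lt_of_le_of_lt (Nat.zero_le _) this : 0 < ramseyNumber t)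
  -- upper bound
  have hma : 0 < ma t := ma_pos t
  have hup1 : ramseyNumber t ≤ 2 ^ (t + 4) * ma t := by
    have h4 := ramseyNumber_le t ht1
    have h5 : 1 ≤ 2 ^ t := Nat.one_le_two_pow
    have h6 : 2 ^ (t + 4) = 16 * 2 ^ t := by ring
    rw [h6]
    have h7 : 2 ^ t * 1 ≤ 2 ^ t * ma t := Nat.mul_le_mul_left _ hma
    have h8 : 1 * ma t ≤ 2 ^ t * ma t := Nat.mul_le_mul_right _ h5
    have h9 : 2 * ((2 * 2 ^ t + 1) * ma t) + 3 = 4 * (2 ^ t * ma t) + 2 * ma t + 3 := by ring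
    have h10 : 16 * 2 ^ t * ma t = 16 * (2 ^ t * ma t) := by ring
    rw [h9] at h4
    rw [h10]
    omega
  have hrpos : (0 : ℝ) < (ramseyNumber t : ℝ) := by
    have := lt_ramseyNumber t ht1
    exact_mod_cast (lt_of_le_of_lt (Nat.zero_le _) this : 0 < ramseyNumber t)
  have hmapos : (0 : ℝ) < (ma t : ℝ) := by exact_mod_cast hma
  have hup2 : Real.logb 2 (ramseyNumber t) ≤ (t + 4) + (1 / 2 + ε / 8) * (mid t : ℝ) := by
    have h4 : (ramseyNumber t : ℝ) ≤ 2 ^ (t + 4) * (ma t : ℝ) := by exact_mod_cast hup1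
    calc Real.logb 2 (ramseyNumber t) ≤ Real.logb 2 (2 ^ (t + 4) * (ma t : ℝ)) :=
          Real.logb_le_logb_of_le (by norm_num) hrpos h4
      _ = (t + 4) + Real.logb 2 (ma t) := by
          rw [Real.logb_mul (by positivity) (by positivity), Real.logb_pow,
            Real.logb_self_eq_one (by norm_num)]
          push_cast; ring
      _ ≤ _ := by linarith
  have hmid2 : (mid t : ℝ) ≤ 2 * (QQ t : ℝ) := by exact_mod_cast mid_le_two_QQ t ht1
  have hsmall : ((t : ℝ) + 4) ≤ (ε / 2) * (QQ t : ℝ) := by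
    have h5 := two_pow_le_mid (t - 1) (by omega)
    rw [← QQ_eq_mid] at h5
    have ht4 : (4 : ℝ) ≤ t := by exact_mod_cast g3
    have h6 : Real.sqrt ((t - 1 : ℕ) : ℝ) ≤ t := by
      rw [Real.sqrt_le_left (by positivity)]
      have h7 : ((t - 1 : ℕ) : ℝ) ≤ t := by exact_mod_cast Nat.sub_le t 1
      nlinarith
    have h7 : (2 : ℝ) ^ t = 2 * 2 ^ (t - 1) := by
      rw [← pow_succ']
      congr 1
      omega
    have h8 : (2 : ℝ) ^ t ≤ 4 * t * (QQ t : ℝ) := by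
      rw [h7]
      calc 2 * (2 : ℝ) ^ (t - 1) ≤ 2 * (2 * Real.sqrt ((t - 1 : ℕ) : ℝ) * (QQ t : ℝ)) := by linarith
        _ ≤ 2 * (2 * t * (QQ t : ℝ)) := by gcongr
        _ = _ := by ring
    have h9 : (0 : ℝ) < 2 ^ t := by positivity
    have h10 : 8 * (t : ℝ) ^ 2 < (ε / 2) * 2 ^ t := by
      have := g2
      rw [← mul_div_assoc, div_lt_iff₀ h9] at this
      linarith
    have h11 : 8 * (t : ℝ) ^ 2 < (ε / 2) * (4 * t * (QQ t : ℝ)) :=
      lt_of_lt_of_le h10 (mul_le_mul_of_nonneg_left h8 (by positivity))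
    have htpos : (0 : ℝ) < t := by linarith
    have h12 : 2 * (t : ℝ) < (ε / 2) * (QQ t : ℝ) := by
      have h13 : (4 * t) * (2 * (t : ℝ)) < (4 * t) * ((ε / 2) * (QQ t : ℝ)) := by
        calc (4 * t) * (2 * (t : ℝ)) = 8 * (t : ℝ) ^ 2 := by ring
          _ < _ := h11
          _ = _ := by ring
      exact lt_of_mul_lt_mul_left h13 (by positivity)
    linarith
  have hup : Real.logb 2 (ramseyNumber t) / (QQ t : ℝ) < 1 + ε := by
    rw [div_lt_iff₀ hQpos]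
    have h5 : (1 / 2 + ε / 8) * (mid t : ℝ) ≤ (1 / 2 + ε / 8) * (2 * (QQ t : ℝ)) :=
      mul_le_mul_of_nonneg_left hmid2 (by positivity)
    have h6 : 0 < ε * (QQ t : ℝ) := by positivity
    nlinarith
  rw [Real.dist_eq, abs_lt]
  constructor <;> linarith

/-- **Main theorem.** `log₂ n_t ∼ 2^t / √(2πt)` as `t → ∞`. -/
theorem result :
    Asymptotics.IsEquivalent atTop (fun t : ℕ => Real.logb 2 (ramseyNumber t))
      (fun t : ℕ => (2 : ℝ) ^ t / Real.sqrt (2 * Real.pi * t)) := by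
  rw [Asymptotics.isEquivalent_iff_tendsto_one]
  · have h := ratio_tendsto.mul QQ_tendsto
    rw [mul_one] at h
    refine h.congr' ?_
    filter_upwards with t
    have hQpos : (QQ t : ℝ) ≠ 0 := by
      have := QQ_pos t
      exact_mod_cast this.ne'
    simp only [Pi.div_apply]
    field_simp
  · filter_upwards [eventually_gt_atTop 0] with t ht
    have h1 : (0 : ℝ) < t := by exact_mod_cast ht
    have h2 := Real.pi_pos
    positivity

end Pool.Agent.Results.MP_e9ef01_co.Growth
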